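import Pool.Agent.Helper11U.FieldGen

/-!
# Function fields over a finite field: two degrees determine all degrees

`k` is a finite field, `E = ℚ_ℓ`. For a separated scheme `X` of finite type over `k` let
`M i n X = CH_n(X, i - 2n) ⊗ ℚ_ℓ` (higher Chow groups), `H i n X = H_i(X̄, ℚ_ℓ(n))` the `ℓ`-adic (Borel-Moore)
homology with the Frobenius `F`, and `cl` the cycle class map. If `X` has dimension `e` then in the
notation of the question `H i n X = H^{2e - i}_{BM}(X̄, ℚ_ℓ(e - n))` and
`M i n X = CH^{e - n}(X, i - 2n) ⊗ ℚ_ℓ`. Hence the degrees `i = 2n` and `i = 2n + 1` correspond to the degrees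
`2j` and `2j - 1` for the twist `j = e - n` of the question.

An invariant class of the generic point of `X` is represented by an invariant class of a non-empty open
subscheme, and it is in the image of the cycle class map over the algebraic closure if and only if it
is so over `k` (average over a finite Galois group). So the question for all function fields over `k` in
degree `i` and weight `n` is `D.Question ⊤ i n`.
-/

set_option autoImplicit false

open CategoryTheory CategoryTheory.Limits AlgebraicGeometry
open Pool.Agent.Helper11U Pool.Agent.Y116.UV Pool.Agent.Z125.UN Pool.Agent.Q282.UK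

universe w w'

namespace Pool.Agent.Results.MP_677d84_ag.AllDegrees

variable {k : Type} [Field k] {E : Type w'} [Field E]

/-- **Theorem.** Let `k` be a finite field. The question has a positive answer for all function fields
over `k` in all degrees and twists if (and only if) it has a positive answer for all function fields
over `k` in the degrees `2j` and `2j - 1` (for all twists `j`), that is, for the groups
`CH^j(K, 0)` and `CH^j(K, 1)`. -/
theorem result [Finite k] (D : FieldThy.{w} k E) (hD : IsFieldAltThy D)
    (hG : Geisser D.toTateThy) :
    (∀ i n : ℤ, D.Question ⊤ i n) ↔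
      (∀ n : ℤ, D.Question ⊤ (2 * n) n) ∧ ∀ n : ℤ, D.Question ⊤ (2 * n + 1) n := by
  refine ⟨fun h => ⟨fun n => h _ n, fun n => h _ n⟩, fun h i n => ?_⟩
  have h1 := (fields_iff hD ⊤).mp h
  exact question_of_sur hD fun X hX _ => (gen_all hD hG h1 X hX i n).2

end Pool.Agent.Results.MP_677d84_ag.AllDegrees
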