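import Pool.Agent.Helper11U.FieldAlt

/-!
# Function fields over a prime field and systems of bilinear equations with three terms

`k` is a finite prime field, `E = ℚ_ℓ`. For a separated scheme `X` of finite type over `k` let
`M i n X = CH_n(X, i - 2n) ⊗ ℚ_ℓ` (higher Chow groups), `H i n X = H_i(X̄, ℚ_ℓ(n))` the `ℓ`-adic (Borel-Moore)
homology with the Frobenius `F`, and `cl` the cycle class map. If `X` has dimension `e` then in the
notation of the question `H i n X = H^{2e - i}_{BM}(X̄, ℚ_ℓ(e - n))` and
`M i n X = CH^{e - n}(X, i - 2n) ⊗ ℚ_ℓ`. Hence the degrees `i = 2n` and `i = 2n + 1` correspond to the degrees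
`2j` and `2j - 1` for the twist `j = e - n` of the question.

An invariant class of the generic point of `X` is represented by an invariant class of a non-empty open
subscheme, and it is in the image of the cycle class map over the algebraic closure if and only if it
is so over `k` (average over a finite Galois group). So the question for all function fields over `k` in
degree `i` and weight `n` is `D.Question ⊤ i n`.
-/

set_option autoImplicit false

open CategoryTheory CategoryTheory.Limits AlgebraicGeometry
open Pool.Agent.Helper11U Pool.Agent.Y116.UV Pool.Agent.Z125.UN Pool.Agent.Q282.UK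
  Pool.Agent.Q282.UZ

universe w w'

namespace Pool.Agent.Results.MP_677d84_ag.BilinearSystems

variable {k : Type} [Field k] {E : Type w'} [Field E]

/-- The condition on a scheme `X`: for all `n`, the map `CH_n(X) ⊗ ℚ_ℓ → H_{2n}(X̄, ℚ_ℓ(n))` is injective with
image the generalized eigenspace of `F` for the eigenvalue one, and the map
`CH_n(X, 1) ⊗ ℚ_ℓ → H_{2n + 1}(X̄, ℚ_ℓ(n))` is surjective onto the generalized eigenspace of `F` for the
eigenvalue one. -/
def Good (D : FieldThy.{w} k E) (X : Sch k) : Prop :=
  ∀ n : ℤ, Function.Injective (D.cl (2 * n) n X).hom ∧ D.SurAt (2 * n) n X ∧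
    D.SurAt (2 * n + 1) n X

lemma good_iff (D : FieldThy.{w} k E) (X : Sch k) : Good D X ↔ D.J X := by
  simp only [Good, TateThy.J, inj_iff, surAt_iff]

lemma question_of_sur {D : FieldThy.{w} k E} (hD : IsFieldThy D) {i n : ℤ}
    (h : ∀ X : Sch k, FT True X → D.SurAt i n X) : D.Question ⊤ i n := by
  intro X hX hI _ v hv
  obtain ⟨x, hx⟩ := h X hX v (gen1_fixed hv)
  have ho : IsOpn (𝟙 X) := isOpn_id inferInstance
  refine ⟨X, 𝟙 X, ho, (D.rM i n (𝟙 X)).hom x, ?_⟩
  rw [← hx]
  exact congrArg (fun f => f.hom x) (hD.nat (𝟙 X) hX ho.1 i n).1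

/-- **Theorem.** Let `k` be a finite field without proper subfields. The question has a positive answer for
all function fields over `k` in the degrees `2j` and `2j - 1` (for all twists `j`) if and only if all
affine schemes `Y` over `k` which are defined by a system of equations
`∑_{(i, j) ∈ E_l} x_i y_j = 0` (`l = 1, …, c`) with `|E_l| ≤ 3` are good. -/
theorem result [Finite k] (hk : Function.Surjective (Int.cast : ℤ → k)) (D : FieldThy.{w} k E)
    (hD : IsFieldThy D) :
    ((∀ n : ℤ, D.Question ⊤ (2 * n) n) ∧ ∀ n : ℤ, D.Question ⊤ (2 * n + 1) n) ↔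
      ForThreeTerms (Good D) := by
  have e : Good D = D.J := funext fun X => propext (good_iff D X)
  rw [e, ← three_iff (short_presents hk) (clo_J hD)]
  constructor
  · rintro ⟨h1, h2⟩ X hX
    exact j_of_fields hD h1 h2 X hX le_top
  · intro h
    exact ⟨fun n => question_of_sur hD fun X hX => (surAt_iff _ _ _).mpr (h X hX n).2.1,
      fun n => question_of_sur hD fun X hX => (surAt_iff _ _ _).mpr (h X hX n).2.2⟩

end Pool.Agent.Results.MP_677d84_ag.BilinearSystems
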