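import Pool.Agent.Helper11U.FieldAlt

/-!
# Function fields and varieties over a finite field, dimension by dimension

`k` is a finite field, `E = ℚ_ℓ`. For a separated scheme `X` of finite type over `k` let
`M i n X = CH_n(X, i - 2n) ⊗ ℚ_ℓ` (higher Chow groups), `H i n X = H_i(X̄, ℚ_ℓ(n))` the `ℓ`-adic (Borel-Moore)
homology with the Frobenius `F`, and `cl` the cycle class map. If `X` has dimension `e` then in the
notation of the question `H i n X = H^{2e - i}_{BM}(X̄, ℚ_ℓ(e - n))` and
`M i n X = CH^{e - n}(X, i - 2n) ⊗ ℚ_ℓ`. Hence the degrees `i = 2n` and `i = 2n + 1` correspond to the degrees
`2j` and `2j - 1` for the twist `j = e - n` of the question.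

An invariant class of the generic point of `X` is represented by an invariant class of a non-empty open
subscheme, and it is in the image of the cycle class map over the algebraic closure if and only if it
is so over `k` (average over a finite Galois group). So the question for all function fields of
transcendence degree at most `d` over `k` in degree `i` and weight `n` is `D.Question d i n`.
-/

set_option autoImplicit false

open CategoryTheory CategoryTheory.Limits AlgebraicGeometry
open Pool.Agent.Helper11U Pool.Agent.Y116.UV Pool.Agent.Z125.UN Pool.Agent.Q282.UK

universe w w'

namespace Pool.Agent.Results.MP_677d84_ag.DimensionByDimension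

variable {k : Type} [Field k] {E : Type w'} [Field E]

/-- **Theorem.** Let `k` be a finite field and `d = 0, 1, 2, …` or `d = ∞`. The question has a positive answer
for all function fields of transcendence degree at most `d` over `k` in the degrees `2j` and `2j - 1` (for
all twists `j`) if and only if for all smooth proper schemes `X` over `k` of dimension at most `d` and all
`n` the map `CH_n(X) ⊗ ℚ_ℓ → H_{2n}(X̄, ℚ_ℓ(n))` is injective with image the generalized eigenspace of
Frobenius for the eigenvalue one (that is, if and only if the conjectures of Tate and of Beilinson and
the semisimplicity of the eigenvalue one are true in dimension at most `d`). -/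
theorem result [Finite k] (D : FieldThy.{w} k E) (hD : IsFieldAltThy D) (d : ℕ∞) :
    ((∀ n : ℤ, D.Question d (2 * n) n) ∧ ∀ n : ℤ, D.Question d (2 * n + 1) n) ↔
      ForSmoothProper D.Strong d :=
  fields_iff hD d

end Pool.Agent.Results.MP_677d84_ag.DimensionByDimension
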