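import Pool.Agent.Helper5.WT.Emb

/-!
# Tate classes of function fields and the cubic hypersurfaces of sets of triples

Let `k` be a finite field with `q` elements and `K = ℚ̄_ℓ`. For a scheme `X`, separated and of finite type
over `k`, `H n X` is the étale cohomology with compact support `H^n_c(X̄, ℚ̄_ℓ)`, with the action of the
(geometric) Frobenius `F`. Its dual space is the Borel–Moore homology
`H^{BM}_n(X̄) = H^{-n}(X̄, π^! ℚ̄_ℓ)`, and the invariant classes in its twist by `-a` are the functionals `φ`
on `H n X` with `φ(F x) = q ^ a φ(x)` (`IsTate q a (H n X) φ`). `Cyc n X a` is the set of all functionals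
which are given by elements of `CH_a(X, n - 2a) ⊗ ℚ̄_ℓ`, Bloch's higher Chow group of cycles of dimension
`a` (so of dimension `a + (n - 2a)` on `X × Δ^{n - 2a}`): the motivic classes. For `X` of dimension `d` this
is the map from `CH^j(X, 2j - i)` to `H^i_{BM}(X̄, ℚ̄_ℓ(j))^G`, with `j = d - a`, `i = 2d - n`, `c = 2j - i = n - 2a`.
-/

set_option autoImplicit false

open CategoryTheory CategoryTheory.Limits AlgebraicGeometry
open Pool.Agent.Y116.UV Pool.Agent.Helper5.WS Pool.Agent.Helper5.WT

namespace Pool.Agent.Results.MP_677d84_ag.TripleHypersurfaces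

variable {k : Type} [Field k] {K : Type} [Field K]

/-- The Tate conjecture for the higher Chow groups `CH_a(X, c)` of `X`, for all `a`: every Tate class
is motivic. -/
def Surj (D : CycleThy k K) (c : ℤ) (X : Sch k) : Prop :=
  ∀ (a : ℤ) (φ : D.H (2 * a + c) X → K), IsTate (Nat.card k) a (D.H (2 * a + c) X) φ →
    φ ∈ D.Cyc (2 * a + c) X a

/-- The Tate conjecture for the function field of `X` in all degrees `i`, `j` with `2j - i = c`: every
Tate class on `X` is motivic on a non-empty open subscheme `V`. -/
def GenericSurj (D : CycleThy k K) (c : ℤ) (X : Sch k) : Prop :=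
  ∀ (a : ℤ) (φ : D.H (2 * a + c) X → K), IsTate (Nat.card k) a (D.H (2 * a + c) X) φ →
    ∃ (V : Sch k) (j : V ⟶ X) (h : IsOpenImmersion j.left), Nonempty V.left ∧
      (fun x => φ (D.ext j h (2 * a + c) x)) ∈ D.Cyc (2 * a + c) V a

/-- The question Q1 over the field `k`: the Tate conjecture for the function fields of all integral
schemes of finite type over `k`. -/
def Q1 (D : CycleThy k K) : Prop :=
  ∀ X : Sch k, FT True X → IsIntegral X.left → ∀ c : ℤ, GenericSurj D c X

/-- The hypersurface of a set of triples is smooth over `k`. -/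
lemma smooth_trip {a b c : ℕ} (E : Finset (Fin a × Fin b × Fin c)) : Smooth (tripS k E).hom := by
  have h := trip_smooth (R := k) E
  change Smooth (Spec.map (CommRingCat.ofHom (algebraMap k (Trip k E))))
  rw [HasRingHomProperty.Spec_iff (P := @Smooth)]
  exact (RingHom.smooth_algebraMap).mpr h

lemma exists_open (X : Sch k) (hX : FT True X) (hne : Nonempty X.left) :
    ∃ V : X.left.Opens, Nonempty (opn X V).left ∧ FT True (opn X V) ∧
      ∃ (A : Type) (_ : CommRing A) (_ : Algebra k A) (_ : Algebra.FiniteType k A),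
        Nonempty (aff k A ≅ opn X V) := by
  obtain ⟨x⟩ := hne
  obtain ⟨V, hV, hx, -⟩ := exists_isAffineOpen_mem_and_subset (X := X.left) (x := x) (U := ⊤) trivial
  have h1 : FT True (opn X V) := ft_opn hX V hV.isCompact
  have h2 : IsAffine (opn X V).left := hV
  exact ⟨V, ⟨⟨x, hx⟩⟩, h1, exists_aff _ h1.locallyOfFiniteType⟩

variable [IsAlgClosed K] [Nonempty (K →+* ℂ)]

/-- The Tate conjecture for `CH_a(V_E, c + 3)` implies the one for `CH_a(Spec A, c)`. -/
theorem surj_affine [Finite k] {D : CycleThy k K} (hD : IsCycleThy D (Nat.card k)) {c : ℤ}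
    (h : ∀ (m r s : ℕ) (E : Finset (Fin m × Fin r × Fin s)), Surj D (c + 3) (tripS k E))
    (A : Type) [CommRing A] [Algebra k A] [Algebra.FiniteType k A] : Surj D c (aff k A) := by
  have hq : 1 < Nat.card k := Finite.one_lt_card
  obtain ⟨p, hp⟩ := CharP.exists k
  have hpp : Nat.Prime p := (CharP.char_is_prime_or_zero k p).resolve_right
    (CharP.char_ne_zero_of_finite k p)
  have : Fact p.Prime := ⟨hpp⟩
  let _ : Algebra (ZMod p) k := ZMod.algebra k p
  have hZ : Presents ({0, 1} : Set (ZMod p)) := presents_zero_one ZMod.intCast_surjective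
  obtain ⟨r, s, m, E, hE⟩ := good_trip hD hq (F := ZMod p) hZ A
  intro a
  refine hE a (2 * a + c) ?_
  have h1 := h _ _ _ E (a + m)
  have h2 : 2 * (a + m) + (c + 3) = 2 * a + c + 3 + 2 * m := by ring
  rw [h2] at h1
  exact h1

omit [IsAlgClosed K] [Nonempty (K →+* ℂ)] in
/-- From `CH_a(X, c + 1)` to `CH_a(X, c)`. -/
theorem surj_down {D : CycleThy k K} (hD : IsCycleThy D (Nat.card k)) {c : ℤ}
    (h : ∀ (A : Type) [CommRing A] [Algebra k A] [Algebra.FiniteType k A], Surj D c (aff k A)) :
    ∀ n : ℕ, ∀ (A : Type) [CommRing A] [Algebra k A] [Algebra.FiniteType k A],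
      Surj D (c - n) (aff k A) := by
  intro n
  induction n with
  | zero =>
    intro A _ _ _
    have : c - ((0 : ℕ) : ℤ) = c := by simp
    rw [this]
    exact h A
  | succ n ih =>
    intro A _ _ _ a
    have h7 := ft_laurent (R := k) A
    have h1 := ih (LaurentPolynomial A) a
    refine good_torus hD A ?_
    have h2 : 2 * a + (c - ((n + 1 : ℕ) : ℤ)) + 1 = 2 * a + (c - n) := by
      push_cast
      ring
    rw [h2]
    exact h1

/-- **Theorem.** Let `k` be a finite field. The following are equivalent: the question Q1 has a positive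
answer over `k`; the Tate conjecture for higher Chow groups holds for the hypersurfaces
`V_E : ∑_{(h, i, j) ∈ E} x_h y_i z_j = 1` over `k` for all finite sets `E` of triples; for arbitrarily large `c`
the cycle map on `CH_a(V_E, c)` is surjective, for all `a` and `E`. -/
theorem result [Finite k] {D : CycleThy k K} (hD : IsCycleThy D (Nat.card k))
    (known : Q1 D → ∀ X : Sch k, FT True X → Smooth X.hom → ∀ c, Surj D c X) :
    List.TFAE [Q1 D,
      ∀ (m r s : ℕ) (E : Finset (Fin m × Fin r × Fin s)) (c : ℤ), Surj D c (tripS k E),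
      ∀ B : ℤ, ∃ c ≥ B, ∀ (m r s : ℕ) (E : Finset (Fin m × Fin r × Fin s)),
        Surj D c (tripS k E)] := by
  tfae_have 1 → 2 := fun h m r s E c => known h _ (ft_aff True) (smooth_trip E) c
  tfae_have 2 → 3 := fun h B => ⟨B, le_rfl, fun m r s E => h m r s E B⟩
  tfae_have 3 → 1 := by
    intro h X hX hint c a φ hφ
    obtain ⟨b, hb, hE⟩ := h (c + 3)
    obtain ⟨V, hne, hV, A, _, _, _, ⟨e⟩⟩ := exists_open X hX inferInstance
    refine ⟨opn X V, opnMap X V, inferInstance, hne, ?_⟩
    obtain ⟨n, hn⟩ : ∃ n : ℕ, b - 3 - n = c := ⟨(b - 3 - c).toNat, by omega⟩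
    have h2 := surj_down hD (c := b - 3) (fun A _ _ _ => surj_affine hD (by
      rw [sub_add_cancel]
      exact hE) A) n A
    rw [hn] at h2
    exact good_iso hD e.symm hV (h2 a) _
      (tate_comp (D.ext (opnMap X V) inferInstance (2 * a + c)).hom hφ)
  tfae_finish

end Pool.Agent.Results.MP_677d84_ag.TripleHypersurfaces
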